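import Pool.Agent.H24.RCM.Targets

/-! IVS: the products of the primes -/

set_option autoImplicit false

open NumberField Polynomial nonZeroDivisors Pool.Agent.H26.NL Pool.Agent.H24.RCM

namespace Pool.Agent.H41.RCM

theorem map_prod_le {R S ι : Type} [CommRing R] [CommRing S] (f : R →+* S) (s : Finset ι)
    (I : ι → Ideal R) (J : ι → Ideal S) (h : ∀ i ∈ s, Ideal.map f (I i) ≤ J i) :
    Ideal.map f (∏ i ∈ s, I i) ≤ ∏ i ∈ s, J i := by
  classical
  induction s using Finset.induction_on with
  | empty =>
    simp only [Finset.prod_empty, Ideal.one_eq_top]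
    exact le_top
  | insert a s ha ih =>
    rw [Finset.prod_insert ha, Finset.prod_insert ha, Ideal.map_mul]
    exact Ideal.mul_mono (h a (Finset.mem_insert_self a s))
      (ih fun i hi => h i (Finset.mem_insert_of_mem hi))

theorem pf_IVS : T_IVS := by
  intro d _ K _ _ _ p k q _ S v ρ n
  refine ⟨?_, ?_, ?_, ?_⟩
  · unfold IV sm
    rw [map_prod, Finset.mul_sum, ← Finset.prod_pow_eq_pow_sum]
    refine Finset.prod_congr rfl fun t _ => ?_
    rw [map_pow, S.absNorm_pr]
  · exact IsCoprime.prod_right fun t _ => (S.q_coprime t).pow_right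
  · intro x hx
    have h1 : Ideal.map (sg (K := K) ρ) (IV S K n v) ≤ IV S K n (tw ρ v) := by
      have h2 : IV S K n (tw ρ v) = ∏ i, (S.pr K (i * ρ⁻¹)) ^ (n * v i) := by
        unfold IV tw
        refine Finset.prod_equiv (Equiv.mulRight ρ) (fun i => by simp) fun i _ => ?_
        simp
      rw [h2]
      refine map_prod_le _ _ _ _ fun i _ => ?_
      rw [Ideal.map_le_iff_le_comap]
      exact fun y hy => S.sg_mem ρ i (n * v i) hy
    exact h1 (Ideal.mem_map_of_mem _ hx)
  · unfold IV PV
    rw [← Ideal.prod_span_singleton]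
    refine Finset.prod_congr rfl fun t _ => ?_
    rw [pow_mul, S.pr_pow t, Ideal.span_singleton_pow]
    rfl

end Pool.Agent.H41.RCM
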